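import Pool.Agent.H77.KG.Targets

/-!
# Row RON (board kgr_modules, MP_9d0bb7_lc): finite radicals are trivial
-/

set_option autoImplicit false

open Set Pool.Agent.H77.BC Pool.Agent.H77.BD Pool.Agent.H77.KG

namespace Pool.Agent.H89.KG

section

variable {M : Type} {U : RU M} {G S : Type} [Group G] [MulAction G S] [Cod M G]
  [Cod M S] [DG U G] [Ful U S] [DA U G S]

/-- the action on tuples is definable -/
theorem da_tuple {k : ℕ} : DA U G (Fin k → S) := ⟨by
  refine DFn_vec (f := fun p : G × (Fin k → S) => p.1 • p.2) fun i => ?_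
  exact DFn_act (f := fun p : G × (Fin k → S) => p.1) (s := fun p => p.2 i) DFn_fst
    (DFn_comp (g := fun x : Fin k → S => x i) (f := fun p : G × (Fin k → S) => p.2)
      (DFn_apply i) DFn_snd)⟩

/-- the change of the first entry -/
theorem DFn_upd {k : ℕ} (i0 : Fin k) (ρ : G) :
    DFn U (fun x : Fin k → S => Function.update x i0 (ρ • x i0)) := by
  refine DFn_vec fun i => ?_
  by_cases hi : i = i0
  · subst hi
    have h : DFn U (fun x : Fin k → S => ρ • x i) :=
      DFn_act (f := fun _ : Fin k → S => ρ) (s := fun x => x i) (DFn_const ρ) (DFn_apply i)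
    have e : (fun x : Fin k → S => Function.update x i (ρ • x i) i) = fun x => ρ • x i := by
      funext x; simp
    rw [e]; exact h
  · have e : (fun x : Fin k → S => Function.update x i0 (ρ • x i0) i) = fun x => x i := by
      funext x; simp [hi]
    rw [e]; exact DFn_apply i

end

/-- RON: finite radicals are trivial -/
theorem pf_RON (hNTF : T_NTF) (hFCJ : T_FCJ) (hPWR : T_PWR) (hORB : T_ORB) : T_RON := by
  intro M U G S _ _ _ _ _ _ _ hconn htr hfa n hn1 hRS hRG hGT G' S' F _ _ _ _ hNat p q hp hq
    heqv hker hfib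
  obtain ⟨s, hs⟩ := hGT
  have A := Pool.Agent.H77.BCP.a_RKA U
  have B := Pool.Agent.H77.BCP.a_RKB U
  haveI := hfa
  haveI := htr
  -- the radical is central
  have hcen : ∀ r ∈ p.ker, ∀ g : G, g * r = r * g := by
    intro r hr g
    refine hFCJ U ⊤ r hconn (hker.subset ?_) g (Subgroup.mem_top g)
    rintro y ⟨h, -, rfl⟩
    exact (MonoidHom.normal_ker p).conj_mem r hr h
  -- a central element which fixes a point is trivial
  have hcfix : ∀ r ∈ p.ker, ∀ x : S, r • x = x → r = 1 := by
    intro r hr x hx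
    apply hfa.eq_of_smul_eq_smul
    intro y
    obtain ⟨g, rfl⟩ := htr.exists_smul_eq x y
    rw [one_smul, ← mul_smul, ← hcen r hr g, mul_smul, hx]
  -- ranks
  have hV : U.R (univ : Set (Fin (n + 2) → S)) = (n + 2) * n := by
    have h := (hPWR U (n + 2) (fun _ => (univ : Set S)) (fun _ => Ful.full)
      (fun _ => ⟨s 0, mem_univ _⟩)).2
    have e : {x : Fin (n + 2) → S | ∀ i, x i ∈ (univ : Set S)} = univ := by
      ext x; simp
    rw [e] at h
    rw [h, hRS]
    simp
  set O : Set (Fin (n + 2) → S) := {x | ∃ g : G, ∀ i, x i = g • s i} with hO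
  set Bd : Set (Fin (n + 2) → S) := {x | ¬ ∃ g : G, ∀ i, x i = g • s i} with hBd
  have hDB : U.D Bd := D_bad s
  have hDO : U.D O := by
    have e : O = Bdᶜ := by
      ext x
      simp only [hO, hBd, mem_ofPred_eq, mem_compl_iff, not_not]
    rw [e]
    exact D_compl hDB
  have hsO : s ∈ O := ⟨1, fun i => (one_smul G (s i)).symm⟩
  have hRO : U.R O = U.R (univ : Set (Fin (n + 2) → S)) := by
    by_cases hne : Bd.Nonempty
    · have h1 := hs hne
      have h2 := A.union hDO hDB ⟨s, hsO⟩ hne
      have e : O ∪ Bd = univ := by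
        ext x
        simp only [hO, hBd, mem_union, mem_ofPred_eq, mem_univ, iff_true]
        exact em _
      rw [e] at h2
      have h3 : max (U.R O) (U.R Bd) = U.R (univ : Set (Fin (n + 2) → S)) := h2.symm
      have h1' : U.R Bd < U.R (univ : Set (Fin (n + 2) → S)) := h1
      rcases le_total (U.R O) (U.R Bd) with h4 | h4
      · rw [max_eq_right h4] at h3
        omega
      · rw [max_eq_left h4] at h3
        exact h3
    · have e : O = univ := by
        ext x
        simp only [mem_univ, iff_true]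
        by_contra hx
        exact hne ⟨x, hx⟩
      rw [e]
  -- finite stabilizers
  haveI : DA U G (Fin (n + 2) → S) := da_tuple
  have hstab : ∀ x ∈ O, {g : G | ∀ i, g • x i = x i}.Finite := by
    rintro x ⟨g0, hg0⟩
    have h1 := hORB U (⊤ : Subgroup G) x hconn.1
    have e1 : {y : Fin (n + 2) → S | ∃ g ∈ (⊤ : Subgroup G), y = g • x} = O := by
      ext y
      constructor
      · rintro ⟨g, -, rfl⟩
        refine ⟨g * g0, fun i => ?_⟩
        rw [Pi.smul_apply, hg0 i, mul_smul]
      · rintro ⟨g, hg⟩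
        refine ⟨g * g0⁻¹, Subgroup.mem_top _, ?_⟩
        funext i
        rw [Pi.smul_apply, hg0 i, hg i, mul_smul, inv_smul_smul]
    have e2 : ((⊤ : Subgroup G) : Set G) = univ := Subgroup.coe_top
    rw [e1, e2, hRG, hRO, hV] at h1
    have h2 : U.R (((⊤ : Subgroup G) ⊓ MulAction.stabilizer G x : Subgroup G) : Set G) = 0 := by
      have h3 : n * (n + 2) = (n + 2) * n := Nat.mul_comm _ _
      omega
    have hDs : U.D (((⊤ : Subgroup G) ⊓ MulAction.stabilizer G x : Subgroup G) : Set G) := by
      rw [top_inf_eq]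
      exact D_stab x
    have h4 := (A.fin hDs ⟨1, Subgroup.one_mem _⟩).1 h2
    refine h4.subset ?_
    intro g hg
    refine ⟨Subgroup.mem_top g, ?_⟩
    show g • x = x
    funext i
    exact hg i
  -- elements whose image fixes the points `q (x i)` lie in the radical
  have hP : ∀ x ∈ O, ∀ g : G, (∀ i, p g • q (x i) = q (x i)) → g ∈ p.ker := by
    intro x hx g hg
    have hfin : {g : G | ∀ i, p g • q (x i) = q (x i)}.Finite := by
      have hk : Finite p.ker := hker.to_subtype
      have hun : (⋃ ρ : Fin (n + 2) → p.ker, {g : G | ∀ i, g • x i = (ρ i : G) • x i}).Finite := by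
        apply Set.finite_iUnion
        intro ρ
        by_cases hne : {g : G | ∀ i, g • x i = (ρ i : G) • x i}.Nonempty
        · obtain ⟨g1, hg1⟩ := hne
          refine ((hstab x hx).image (fun h => g1 * h)).subset ?_
          intro h hh
          refine ⟨g1⁻¹ * h, fun i => ?_, mul_inv_cancel_left g1 h⟩
          rw [mul_smul, hh i, ← hg1 i, inv_smul_smul]
        · rw [Set.not_nonempty_iff_eq_empty.1 hne]
          exact Set.finite_empty
      refine hun.subset ?_
      intro h hh
      have h1 : ∀ i, ∃ r : p.ker, h • x i = (r : G) • x i := by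
        intro i
        have h2 : q (x i) = q (h • x i) := by rw [heqv, hh i]
        obtain ⟨r, hr, h3⟩ := hfib _ _ h2
        exact ⟨⟨r, hr⟩, h3⟩
      choose ρ hρ using h1
      exact Set.mem_iUnion.2 ⟨ρ, hρ⟩
    have hfin' : {g' : G' | ∀ i, g' • q (x i) = q (x i)}.Finite := by
      refine (hfin.image (fun g => p g)).subset ?_
      intro g' hg'
      obtain ⟨h, rfl⟩ := hp g'
      exact ⟨h, hg', rfl⟩
    exact hNTF n hNat (n + 2) (fun i => q (x i)) hfin' (p g) hg
  -- the radical is trivial
  rw [Subgroup.eq_bot_iff_forall]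
  intro ρ hρ
  have hex : ∃ x ∈ O, Function.update x 0 (ρ • x 0) ∈ O := by
    by_contra hcon
    push Not at hcon
    have hsub : (fun x : Fin (n + 2) → S => Function.update x 0 (ρ • x 0)) '' O ⊆ Bd := by
      rintro y ⟨x, hx, rfl⟩
      exact hcon x hx
    have hne : Bd.Nonempty := ⟨_, hsub ⟨s, hsO, rfl⟩⟩
    have hinj : InjOn (fun x : Fin (n + 2) → S => Function.update x 0 (ρ • x 0)) O := by
      intro x _ y _ hxy
      have hxy' : ∀ i, Function.update x 0 (ρ • x 0) i = Function.update y 0 (ρ • y 0) i :=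
        fun i => congrFun hxy i
      funext i
      by_cases hi : i = 0
      · subst hi
        have := hxy' 0
        simp only [Function.update_self] at this
        exact MulAction.injective ρ this
      · have := hxy' i
        simpa [hi] using this
    have h1 := B.inj hDO (DFn_upd (U := U) (0 : Fin (n + 2)) ρ) ⟨s, hsO⟩ hinj
    have h2 := A.mono (DFn_image (DFn_upd (U := U) (0 : Fin (n + 2)) ρ) hDO) hDB
      ⟨_, s, hsO, rfl⟩ hsub
    have h3 : U.R Bd < U.R (univ : Set (Fin (n + 2) → S)) := hs hne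
    rw [h1, hRO] at h2
    omega
  obtain ⟨x, hx, hx'⟩ := hex
  obtain ⟨g1, hg1⟩ := hx
  obtain ⟨g2, hg2⟩ := hx'
  have hh : ∀ i, (g2 * g1⁻¹) • x i = Function.update x 0 (ρ • x 0) i := by
    intro i
    rw [hg2 i, hg1 i, mul_smul, inv_smul_smul]
  have h0 : (g2 * g1⁻¹) • x 0 = ρ • x 0 := by
    rw [hh 0, Function.update_self]
  have h1ne : (1 : Fin (n + 2)) ≠ 0 := by simp
  have h1 : (g2 * g1⁻¹) • x 1 = x 1 := by
    rw [hh 1, Function.update_of_ne h1ne]
  have hmem : g2 * g1⁻¹ ∈ p.ker := by
    refine hP x ⟨g1, hg1⟩ _ fun i => ?_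
    rw [← heqv, hh i]
    by_cases hi : i = 0
    · subst hi
      rw [Function.update_self, heqv, MonoidHom.mem_ker.1 hρ, one_smul]
    · rw [Function.update_of_ne hi]
  have hone := hcfix _ hmem (x 1) h1
  rw [hone, one_smul] at h0
  exact hcfix ρ hρ (x 0) h0.symm

end Pool.Agent.H89.KG
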